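import Mathlib

/-!
# Statements of the jobs of project GLW (MP_2f8bd9_al, the counterexample under CH)

`V` is a vector space of countable infinite dimension over a countable field `F`. Under the continuum
hypothesis there is a proper subgroup `H` of `GL(V)` that induces `GL(U)` on every large subspace `U`.
All maps act on the left. `Pe k`: `k` is a scalar or all `k - c` have ranges of finite codimension.
-/

set_option autoImplicit false

namespace Pool.Agent.Q31.GLW

open Module Cardinal Submodule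

section defs
variable {F V : Type} [Field F] [AddCommGroup V] [Module F V]

/-- `k` is a scalar -/
def Sc (k : V ≃ₗ[F] V) : Prop := ∃ c : F, ∀ v, k v = c • v

/-- `k` is a scalar, or all `k - c` have ranges of finite codimension -/
def Pe (k : V ≃ₗ[F] V) : Prop :=
  Sc k ∨ ∀ c : F, FiniteDimensional F (V ⧸ LinearMap.range ((k : V →ₗ[F] V) - c • LinearMap.id))

/-- infinite codimension -/
def IC (Z : Submodule F V) : Prop := ¬ FiniteDimensional F (V ⧸ Z)

/-- conditions: injective partial maps which extend `g` and are defined on `U` plus a space of finite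
dimension -/
def Cond (U : Submodule F V) (g : U ≃ₗ[F] U) (p : V →ₗ.[F] V) : Prop :=
  (∀ x : p.domain, p x = 0 → (x : V) = 0) ∧
  (∃ E : Submodule F V, FiniteDimensional F E ∧ p.domain = U ⊔ E) ∧
  ∀ (u : U) (x : p.domain), (x : V) = (u : V) → p x = (g u : V)

/-- `h` extends `p` -/
def Ext (p : V →ₗ.[F] V) (h : V ≃ₗ[F] V) : Prop := ∀ x : p.domain, h (x : V) = p x

/-- the domain (`true`) or the range (`false`) of `p` -/
def side (p : V →ₗ.[F] V) : Bool → Submodule F V
  | true => p.domain
  | false => LinearMap.range p.toFun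

/-- `h` (`true`) or the inverse of `h` (`false`) -/
def act (h : V ≃ₗ[F] V) : Bool → (V ≃ₗ[F] V)
  | true => h
  | false => h⁻¹

/-- the value of a word; the head of the list is applied first: first `k`, then `act h e` -/
def ev (h : V ≃ₗ[F] V) : List ((V ≃ₗ[F] V) × Bool) → (V ≃ₗ[F] V)
  | [] => 1
  | a :: M => ev h M * (act h a.2 * a.1)

/-- reduced words -/
def Rd : List ((V ≃ₗ[F] V) × Bool) → Prop
  | [] => True
  | [_] => True
  | a :: b :: M => (b.2 = a.2 ∨ ¬ Sc b.1) ∧ Rd (b :: M)

/-- the exponent of the last entry of a word with first exponent `e` and further entries `M` -/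
def lastE : Bool → List ((V ≃ₗ[F] V) × Bool) → Bool
  | e, [] => e
  | _, b :: M => lastE b.2 M

/-- cyclically reduced words `a :: M` -/
def Cyc (a : (V ≃ₗ[F] V) × Bool) (M : List ((V ≃ₗ[F] V) × Bool)) : Prop :=
  Rd (a :: M) ∧ (a.2 = lastE a.2 M ∨ ¬ Sc a.1)

end defs

/-- IND. Proof: otherwise `k z ∈ Z + F z` for every `z ∉ Z`, `k z ≡ c_z z mod Z`. For `z`, `z'` independent mod
`Z`: `c_z = c_z'` (compare `k (z + z')`). If `ζ ∈ Z` and `z`, `z'` are independent mod `Z`: `k ζ = k (z + ζ) - k z` is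
in `Z + F z` and in `Z + F z'`, so in `Z`, and `c_(z + ζ) = c_z`. As `V / Z` has dimension at least `2` all `c_z`
are equal to one `c` and `(k - c) V ⊆ Z`, which contradicts `Pe k` and `IC Z`. -/
def S_IND : Prop := ∀ (F V : Type) [Field F] [AddCommGroup V] [Module F V] (k : V ≃ₗ[F] V)
  (Z : Submodule F V), ¬ Sc k → Pe k → IC Z →
    ∃ z : V, ∀ a b : F, a • z + b • k z ∈ Z → a = 0 ∧ b = 0

/-- ADD. Proof: for `e = true` add the pair `(a, z)` to `p` (`LinearPMap.supSpanSingleton` or similar), for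
`e = false` the pair `(z, a)`. -/
def S_ADD : Prop := ∀ (F V : Type) [Field F] [AddCommGroup V] [Module F V] (U : Submodule F V)
  (g : U ≃ₗ[F] U) (p : V →ₗ.[F] V) (e : Bool) (a z : V), Cond U g p → a ∉ side p e →
    z ∉ side p (!e) → ∃ q : V →ₗ.[F] V, Cond U g q ∧ p ≤ q ∧ side q e = side p e ⊔ span F {a} ∧
      side q (!e) = side p (!e) ⊔ span F {z} ∧ ∀ h : V ≃ₗ[F] V, Ext q h → act h e a = z

/-- ICS. Proof: the range of `p` is `U + p(E)`, as `g` maps `U` onto `U`; so the sum is `U` plus a space of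
finite dimension. -/
def S_ICS : Prop := ∀ (F V : Type) [Field F] [AddCommGroup V] [Module F V] (U : Submodule F V)
  (g : U ≃ₗ[F] U) (p : V →ₗ.[F] V) (W : Submodule F V), IC U → Cond U g p →
    FiniteDimensional F W → IC (side p true ⊔ side p false ⊔ W)

/-- PATH, may use S_IND, S_ADD, S_ICS. Proof: induction on `M`, for all `k`, `e`, `p`, `a`. Write
`e₁ = lastE e M`. `M = []`: ADD for `a` and `z = s`. `M = b :: M'`: let `Z = side p true + side p false + F a + F s`
(`IC` by ICS). If `b.1` is a scalar (then `b.2 = e`) choose `z ∉ Z`, otherwise `z` from IND for `b.1` and `Z`. ADD for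
`a`, `z` gives `q`; the hypotheses hold for `q`, `a' = b.1 z` and the word `b :: M'`: `side q (!e₁)` is
`side p (!e₁)` plus `F a` (if `e ≠ e₁`) or `F z` (if `e = e₁`), and does not contain `s`. -/
def S_PATH : Prop := ∀ (F V : Type) [Field F] [AddCommGroup V] [Module F V] (U : Submodule F V)
  (g : U ≃ₗ[F] U), IC U → ∀ (M : List ((V ≃ₗ[F] V) × Bool)) (k : V ≃ₗ[F] V) (e : Bool)
  (p : V →ₗ.[F] V) (a s : V), (∀ b ∈ M, Pe b.1) → Rd ((k, e) :: M) → Cond U g p → a ∉ side p e →
  s ∉ side p (!(lastE e M)) → (e = lastE e M ∨ s ∉ side p (!(lastE e M)) ⊔ span F {a}) →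
    ∃ q : V →ₗ.[F] V, Cond U g q ∧ p ≤ q ∧ ∀ h : V ≃ₗ[F] V, Ext q h → (ev h M * act h e) a = s

/-- DN, may use S_IND, S_ICS, S_PATH. Proof: `Z = side p true + side p false + F v`. If `k` is not a scalar take
`y` from IND for `k`, `Z`; if `k` is a scalar (then `e = lastE e M`) take `y ∉ Z`. Apply PATH to `a = k y` and
`s = v + c • y`. -/
def S_DN : Prop := ∀ (F V : Type) [Field F] [AddCommGroup V] [Module F V] (U : Submodule F V)
  (g : U ≃ₗ[F] U), IC U → ∀ (k : V ≃ₗ[F] V) (e : Bool) (M : List ((V ≃ₗ[F] V) × Bool)), Pe k →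
  (∀ b ∈ M, Pe b.1) → Cyc (k, e) M → ∀ (c : F) (v : V), c ≠ 0 → ∀ p : V →ₗ.[F] V, Cond U g p →
    ∃ q : V →ₗ.[F] V, Cond U g q ∧ p ≤ q ∧ ∀ h : V ≃ₗ[F] V, Ext q h →
      ∃ y, ev h ((k, e) :: M) y = v + c • y

/-- RS (Rasiowa-Sikorski), may use S_ADD, S_ICS. Proof: start with `g` on `U`; choose `p₀ ≤ p₁ ≤ ...` such that
`p_(n+1)` extends a member of `D n` and has the `n`-th element of `V` in its domain and in its range (ADD; there
are vectors outside of the domain and the range by ICS). The union (`LinearPMap.sSup` of a chain, or direct)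
is a linear bijection. -/
def S_RS : Prop := ∀ (F V : Type) [Field F] [AddCommGroup V] [Module F V] [Countable V]
  (U : Submodule F V) (g : U ≃ₗ[F] U), IC U → ∀ D : ℕ → Set (V →ₗ.[F] V),
  (∀ n p, Cond U g p → ∃ q ∈ D n, Cond U g q ∧ p ≤ q) →
    ∃ h : V ≃ₗ[F] V, (∀ u : U, h (u : V) = (g u : V)) ∧ ∀ n, ∃ q ∈ D n, Ext q h

/-- RED. Proof: every element of the closure is `k' * ev h M` with `k' ∈ K` and entries of `M` in `K`
(`Subgroup.closure_induction_left`); conjugating by `k'` moves it into the first entry of `M`. Induction on the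
length of `M`: a violation at consecutive entries `(k, e)`, `(k', !e)` with `k'` a scalar (scalars are central)
is removed, `act h (!e) * k' * (act h e * k) = k' * k` is moved into the next entry (or, at the end, by
conjugation to the front); a violation of the cyclic condition in the same way after a rotation. -/
def S_RED : Prop := ∀ (F V : Type) [Field F] [AddCommGroup V] [Module F V]
  (K : Subgroup (V ≃ₗ[F] V)) (h x : V ≃ₗ[F] V), x ∈ Subgroup.closure ((K : Set (V ≃ₗ[F] V)) ∪ {h}) →
    (∃ k ∈ K, IsConj x k) ∨ ∃ (a : (V ≃ₗ[F] V) × Bool) (M : List ((V ≃ₗ[F] V) × Bool)),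
      a.1 ∈ K ∧ (∀ b ∈ M, b.1 ∈ K) ∧ Cyc a M ∧ IsConj x (ev h (a :: M))

/-- EL, may use S_DN, S_RS, S_RED. Proof: RS for the countably many sets
`D (a, M, c, v) = {q | ∀ h, Ext q h → ∃ y, ev h (a :: M) y = v + c • y}` (entries in `K`, `Cyc a M`, `c ≠ 0`), dense
by DN. By RED every `x` is conjugate to some `k ∈ K` or to some `ev h (a :: M)`, for which all
`ev h (a :: M) - c` are onto (`c = 0`: invertible); `Pe` is invariant under conjugation. -/
def S_EL : Prop := ∀ (F V : Type) [Field F] [AddCommGroup V] [Module F V] [Countable F]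
  [Countable V] (K : Subgroup (V ≃ₗ[F] V)), (K : Set (V ≃ₗ[F] V)).Countable → (∀ k ∈ K, Pe k) →
  ∀ (U : Submodule F V) (g : U ≃ₗ[F] U), IC U → ∃ h : V ≃ₗ[F] V, (∀ u : U, h (u : V) = (g u : V)) ∧
    ∀ x ∈ Subgroup.closure ((K : Set (V ≃ₗ[F] V)) ∪ {h}), Pe x

/-- TRF (transfinite recursion of length `ω₁`). Proof: well-order `T` with countable initial segments
(`#T ≤ ℵ₁`; e.g. an injection of `T` into `(ℵ₁).ord.ToType`). By recursion choose `h_τ` for the countable
group `K_τ` generated by the `h_σ`, `σ < τ`, all of whose elements satisfy `P` (the group is the directed union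
of the groups generated by `K_σ ∪ {h_σ}`, `σ < τ`; if there is no `σ < τ` it is trivial). `H` is the group
generated by all `h_τ`. -/
def S_TRF : Prop := ∀ (G T : Type) [Group G] (P : G → Prop) (sol : T → G → Prop), #T ≤ ℵ₁ → P 1 →
  (∀ K : Subgroup G, (K : Set G).Countable → (∀ k ∈ K, P k) → ∀ τ : T, ∃ h, sol τ h ∧
    ∀ x ∈ Subgroup.closure ((K : Set G) ∪ {h}), P x) →
  ∃ H : Subgroup G, (∀ x ∈ H, P x) ∧ ∀ τ, ∃ h ∈ H, sol τ h

/-- CNT. Proof: the subsets of a countable set and the functions on it with values in it are at most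
`𝔠` many. -/
def S_CNT : Prop := ∀ (F V : Type) [Field F] [AddCommGroup V] [Module F V] [Countable V],
  #(Σ U : Submodule F V, (U ≃ₗ[F] U)) ≤ 𝔠

/-- NP. Proof: `V ≃ V × V`, `t (a, b) = (a + b, b)` is not a scalar and `t - 1` has range `V × 0`. -/
def S_NP : Prop := ∀ (F V : Type) [Field F] [AddCommGroup V] [Module F V],
  ℵ₀ ≤ Module.rank F V → ∃ t : V ≃ₗ[F] V, ¬ Pe t

end Pool.Agent.Q31.GLW
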