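import Pool.Agent.Q31.GLW.Stm

set_option autoImplicit false

namespace Pool.Agent.Q31.GLW

open Module Cardinal Submodule

theorem fin (h1 : S_EL) (h2 : S_TRF) (h3 : S_CNT) (h4 : S_NP) (CH : (ℵ₁ : Cardinal.{0}) = 𝔠)
    (F V : Type) [Field F] [AddCommGroup V] [Module F V] [Countable F]
    (hV : Module.rank F V = ℵ₀) : ∃ H : Subgroup (V ≃ₗ[F] V), H ≠ ⊤ ∧
      ∀ U : Submodule F V, Module.rank F (V ⧸ U) = ℵ₀ → ∀ g : U ≃ₗ[F] U,
        ∃ h ∈ H, ∀ u : U, h (u : V) = (g u : V) := by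
  have hcV : Countable V := by
    have b := Module.Free.chooseBasis F V
    have hc : Countable (Module.Free.ChooseBasisIndex F V) := by
      rw [← Cardinal.mk_le_aleph0_iff, ← Module.Free.rank_eq_card_chooseBasisIndex, hV]
    exact b.repr.toEquiv.countable_iff.2 inferInstance
  have hT : #{τ : Σ U : Submodule F V, (U ≃ₗ[F] U) // IC τ.1} ≤ ℵ₁ :=
    (Cardinal.mk_subtype_le _).trans ((h3 F V).trans CH.ge)
  obtain ⟨H, hP, hs⟩ := h2 (V ≃ₗ[F] V) {τ : Σ U : Submodule F V, (U ≃ₗ[F] U) // IC τ.1} Pe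
    (fun τ h => ∀ u : τ.1.1, h (u : V) = (τ.1.2 u : V)) hT (Or.inl ⟨1, fun v => by simp⟩)
    (fun K hK hKP τ => h1 F V K hK hKP τ.1.1 τ.1.2 τ.2)
  refine ⟨H, fun h => ?_, fun U hU g => ?_⟩
  · obtain ⟨t, ht⟩ := h4 F V hV.ge
    exact ht (hP t (h ▸ Subgroup.mem_top t))
  · have hIC : IC U := fun hf => by
      have := Module.rank_lt_aleph0 F (V ⧸ U)
      rw [hU] at this
      exact lt_irrefl _ this
    exact hs ⟨⟨U, g⟩, hIC⟩

end Pool.Agent.Q31.GLW
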