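import Pool.Agent.Q31.GLW.Main

set_option autoImplicit false

namespace Pool.Agent.Q31.GLW

open Module Cardinal Submodule

/-- The version for at most `ℵ₁` pairs `(U, g)`, without the continuum hypothesis. -/
theorem tasks (F V : Type) [Field F] [AddCommGroup V] [Module F V] [Countable F]
    (hV : Module.rank F V = ℵ₀) (T : Set (Σ U : Submodule F V, (U ≃ₗ[F] U))) (hT : #T ≤ ℵ₁)
    (hL : ∀ τ ∈ T, Module.rank F (V ⧸ τ.1) = ℵ₀) :
    ∃ H : Subgroup (V ≃ₗ[F] V), H ≠ ⊤ ∧ ∀ τ ∈ T, ∃ h ∈ H, ∀ u : τ.1, h (u : V) = (τ.2 u : V) := by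
  have hcV : Countable V := by
    have b := Module.Free.chooseBasis F V
    have hc : Countable (Module.Free.ChooseBasisIndex F V) := by
      rw [← Cardinal.mk_le_aleph0_iff, ← Module.Free.rank_eq_card_chooseBasisIndex, hV]
    exact b.repr.toEquiv.countable_iff.2 inferInstance
  obtain ⟨H, hP, hs⟩ := Pool.Agent.Q158.GLW.t_TRF (V ≃ₗ[F] V) T Pe
    (fun τ h => ∀ u : τ.1.1, h (u : V) = (τ.1.2 u : V)) hT (Or.inl ⟨1, fun v => by simp⟩)
    (fun K hK hKP τ => h_EL F V K hK hKP τ.1.1 τ.1.2 (fun hf => by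
      have := Module.rank_lt_aleph0 F (V ⧸ τ.1.1)
      rw [hL τ.1 τ.2] at this
      exact lt_irrefl _ this))
  refine ⟨H, fun h => ?_, fun τ hτ => hs ⟨τ, hτ⟩⟩
  obtain ⟨t, ht⟩ := Pool.Agent.Q121.GLW.t_NP F V hV.ge
  exact ht (hP t (h ▸ Subgroup.mem_top t))

end Pool.Agent.Q31.GLW
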