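import Pool.Agent.Q31.GLW.Fin
import Pool.Agent.Q121.GLW.NP
import Pool.Agent.Q158.GLW.TRF
import Pool.Agent.Q181.GLW.PATH
import Pool.Agent.Q208.GLW.IND
import Pool.Agent.Q214.GLW.EL
import Pool.Agent.Q222.GLW.ICS
import Pool.Agent.Q259.GLW.RED
import Pool.Agent.Q278.GLW.CNT
import Pool.Agent.Q294.GLW.RS
import Pool.Agent.Q65.GLW.ADD
import Pool.Agent.Q65.GLW.DN

set_option autoImplicit false

namespace Pool.Agent.Q31.GLW

open Module Cardinal Submodule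

theorem h_PATH : S_PATH := Pool.Agent.Q181.GLW.t_PATH Pool.Agent.Q208.GLW.t_IND
  Pool.Agent.Q65.GLW.t_ADD Pool.Agent.Q222.GLW.t_ICS

theorem h_DN : S_DN := Pool.Agent.Q65.GLW.t_DN Pool.Agent.Q208.GLW.t_IND
  Pool.Agent.Q222.GLW.t_ICS h_PATH

theorem h_RS : S_RS := Pool.Agent.Q294.GLW.t_RS Pool.Agent.Q65.GLW.t_ADD Pool.Agent.Q222.GLW.t_ICS

theorem h_EL : S_EL := Pool.Agent.Q214.GLW.t_EL h_DN h_RS Pool.Agent.Q259.GLW.t_RED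

theorem main (CH : (ℵ₁ : Cardinal.{0}) = 𝔠)
    (F V : Type) [Field F] [AddCommGroup V] [Module F V] [Countable F]
    (hV : Module.rank F V = ℵ₀) : ∃ H : Subgroup (V ≃ₗ[F] V), H ≠ ⊤ ∧
      ∀ U : Submodule F V, Module.rank F (V ⧸ U) = ℵ₀ → ∀ g : U ≃ₗ[F] U,
        ∃ h ∈ H, ∀ u : U, h (u : V) = (g u : V) :=
  fin h_EL Pool.Agent.Q158.GLW.t_TRF Pool.Agent.Q278.GLW.t_CNT Pool.Agent.Q121.GLW.t_NP CH F V hV

end Pool.Agent.Q31.GLW
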